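import Mathlib
import Pool.Agent.U37.MQ.Stm

/-!
# Project MQ, package CL: the projective closure
-/

set_option autoImplicit false

namespace Pool.Agent.U450.MQ

open Finset Equiv Pool.Agent.U37.MQ Pool.Agent.N606.ST Pool.Agent.U671.PG

open scoped Classical

section

variable {V : Type} [Fintype V] {n : ℕ}

/-- points of the closure -/
abbrev Pt (V : Type) (n : ℕ) (X : V) : Type := {y : V // y ≠ X} ⊕ Fin (n + 1)

/-- the embedding of the points -/
noncomputable def pt (n : ℕ) (X : V) (y : V) : Pt V n X :=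
  if h : y ≠ X then Sum.inl ⟨y, h⟩ else Sum.inr 0

/-- the line of a circle -/
noncomputable def ln (n : ℕ) (X : V) (d : Finset V → Fin (n + 1)) (g : Finset V) :
    Finset (Pt V n X) :=
  insert (Sum.inr (d g)) ((g.erase X).image (pt n X))

/-- the line at infinity -/
noncomputable def inf (n : ℕ) (X : V) : Finset (Pt V n X) := univ.image Sum.inr

theorem pt_eq {X y : V} (h : y ≠ X) : pt n X y = Sum.inl ⟨y, h⟩ := by
  unfold pt; rw [dif_pos h]

theorem pt_inj {X y z : V} (hy : y ≠ X) (hz : z ≠ X) (h : pt n X y = pt n X z) : y = z := by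
  rw [pt_eq hy, pt_eq hz] at h
  have h1 := Sum.inl_injective h
  exact congrArg Subtype.val h1

theorem pt_ne {X y : V} (hy : y ≠ X) (i : Fin (n + 1)) : pt n X y ≠ Sum.inr i := by
  rw [pt_eq hy]; exact Sum.inl_ne_inr

theorem mem_ln_pt {X y : V} {d : Finset V → Fin (n + 1)} {g : Finset V} (hy : y ≠ X) :
    pt n X y ∈ ln n X d g ↔ y ∈ g := by
  unfold ln
  rw [mem_insert, mem_image]
  constructor
  · rintro (h | ⟨z, hz, h⟩)
    · exact absurd h (pt_ne hy _)
    · rw [mem_erase] at hz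
      rw [← pt_inj hz.1 hy h]
      exact hz.2
  · intro h
    exact Or.inr ⟨y, mem_erase.2 ⟨hy, h⟩, rfl⟩

theorem mem_ln_inr {X : V} {d : Finset V → Fin (n + 1)} {g : Finset V} {i : Fin (n + 1)} :
    (Sum.inr i : Pt V n X) ∈ ln n X d g ↔ i = d g := by
  unfold ln
  rw [mem_insert, mem_image]
  constructor
  · rintro (h | ⟨z, hz, h⟩)
    · exact Sum.inr_injective h
    · exact absurd h (pt_ne (mem_erase.1 hz).1 _)
  · rintro rfl
    exact Or.inl rfl

theorem not_mem_inf {X y : V} (hy : y ≠ X) : pt n X y ∉ inf n X := by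
  unfold inf
  rw [mem_image]
  rintro ⟨i, -, h⟩
  exact pt_ne hy i h.symm

theorem mem_inf {X : V} (i : Fin (n + 1)) : (Sum.inr i : Pt V n X) ∈ inf n X :=
  mem_image_of_mem _ (mem_univ i)

theorem card_ln {X : V} {d : Finset V → Fin (n + 1)} {g : Finset V} (hg : g.card = n + 1)
    (hX : X ∈ g) : (ln n X d g).card = n + 1 := by
  unfold ln
  rw [card_insert_of_notMem, card_image_of_injOn, card_erase_of_mem hX, hg, Nat.add_sub_cancel]
  · intro a ha b hb h
    rw [mem_coe, mem_erase] at ha hb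
    exact pt_inj ha.1 hb.1 h
  · rw [mem_image]
    rintro ⟨z, hz, h⟩
    exact pt_ne (mem_erase.1 hz).1 _ h

theorem card_inf {X : V} : (inf n X).card = n + 1 := by
  unfold inf
  rw [card_image_of_injective _ Sum.inr_injective, card_univ, Fintype.card_fin]

theorem card_Pt {X : V} (h : Fintype.card V = n ^ 2 + 1) :
    Fintype.card (Pt V n X) = n ^ 2 + n + 1 := by
  have h1 : Fintype.card {y : V // y ≠ X} = n ^ 2 := by
    rw [Fintype.card_subtype, filter_ne', card_erase_of_mem (mem_univ _), card_univ, h,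
      Nat.add_sub_cancel]
  rw [Fintype.card_sum, h1, Fintype.card_fin]
  ring

end

theorem t_CL : S_INC → S_DIR → S_CL := by
  intro hINC hDIR V _ n B X hn hI
  have H : Inc n B := hINC V n B hn hI
  obtain ⟨d, hd1, hd2⟩ := hDIR V n B X hn H
  -- a point different from `X`
  have hy0 : ∃ y : V, y ≠ X := by
    have h1 : 1 < Fintype.card V := by
      rw [H.cV]
      have : 0 < n ^ 2 := by positivity
      omega
    exact Fintype.exists_ne_of_one_lt_card h1 X
  obtain ⟨y0, hy0⟩ := hy0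
  have hall : ∀ P : Pt V n X, (∃ y, y ≠ X ∧ P = pt n X y) ∨ ∃ i, P = Sum.inr i := by
    rintro (⟨y, hy⟩ | i)
    · exact Or.inl ⟨y, hy, (pt_eq hy).symm⟩
    · exact Or.inr ⟨i, rfl⟩
  set B' : Finset (Finset (Pt V n X)) :=
    insert (inf n X) ((B.filter fun g => X ∈ g).image (ln n X d)) with hB'
  have hmem : ∀ b, b ∈ B' ↔ b = inf n X ∨ ∃ g ∈ B, X ∈ g ∧ b = ln n X d g := by
    intro b
    rw [hB', mem_insert, mem_image]
    constructor
    · rintro (h | ⟨g, hg, h⟩)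
      · exact Or.inl h
      · rw [mem_filter] at hg
        exact Or.inr ⟨g, hg.1, hg.2, h.symm⟩
    · rintro (h | ⟨g, hg, hX, h⟩)
      · exact Or.inl h
      · exact Or.inr ⟨g, mem_filter.2 ⟨hg, hX⟩, h.symm⟩
  -- a point and a direction
  have key : ∀ a, a ≠ X → ∀ i : Fin (n + 1),
      ∃! b, b ∈ B' ∧ pt n X a ∈ b ∧ (Sum.inr i : Pt V n X) ∈ b := by
    intro a ha i
    obtain ⟨g, hg, hXg, hag, hdg⟩ := hd2 i a ha
    refine ⟨ln n X d g, ⟨(hmem _).2 (Or.inr ⟨g, hg, hXg, rfl⟩), (mem_ln_pt ha).2 hag,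
      mem_ln_inr.2 hdg.symm⟩, ?_⟩
    rintro b ⟨hb, h1, h2⟩
    rcases (hmem b).1 hb with rfl | ⟨h, hh, hXh, rfl⟩
    · exact absurd h1 (not_mem_inf ha)
    · rw [mem_ln_pt ha] at h1
      rw [mem_ln_inr] at h2
      have h3 : d h = d g := by rw [← h2, hdg]
      rcases (hd1 h hh hXh g hg hXg).1 h3 with h4 | h4
      · rw [h4]
      · exfalso
        have h5 : a ∈ h ∩ g := mem_inter.2 ⟨h1, hag⟩
        rw [h4, mem_singleton] at h5
        exact ha h5
  refine ⟨Pt V n X, inferInstance, B', pt n X, fun g => Sum.inr (d g), ln n X d, inf n X, ?_⟩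
  refine ⟨⟨card_Pt H.cV, ?_, ?_⟩, fun y z hy hz h => pt_inj hy hz h,
    fun y hy g _ _ => pt_ne hy _, ?_, ?_, hmem, fun g _ _ y hy => mem_ln_pt hy, ?_,
    fun y hy => not_mem_inf hy, fun g _ _ => mem_inf _⟩
  · intro b hb
    rcases (hmem b).1 hb with rfl | ⟨g, hg, hXg, rfl⟩
    · exact card_inf
    · exact card_ln (H.cb g hg) hXg
  · intro P Q hPQ
    rcases hall P with ⟨a, ha, rfl⟩ | ⟨i, rfl⟩
    · rcases hall Q with ⟨b, hb, rfl⟩ | ⟨j, rfl⟩
      · have hab : a ≠ b := fun h => hPQ (by rw [h])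
        obtain ⟨g, hg, hXg, hag, hbg⟩ := H.ex3 X a b (Ne.symm ha) (Ne.symm hb) hab
        refine ⟨ln n X d g, ⟨(hmem _).2 (Or.inr ⟨g, hg, hXg, rfl⟩), (mem_ln_pt ha).2 hag,
          (mem_ln_pt hb).2 hbg⟩, ?_⟩
        rintro c ⟨hc, h1, h2⟩
        rcases (hmem c).1 hc with rfl | ⟨h, hh, hXh, rfl⟩
        · exact absurd h1 (not_mem_inf ha)
        · rw [mem_ln_pt ha] at h1
          rw [mem_ln_pt hb] at h2
          rw [H.eq3 X a b (Ne.symm ha) (Ne.symm hb) hab h hh g hg hXh h1 h2 hXg hag hbg]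
      · exact key a ha j
    · rcases hall Q with ⟨b, hb, rfl⟩ | ⟨j, rfl⟩
      · obtain ⟨c, ⟨hc, h1, h2⟩, huniq⟩ := key b hb i
        exact ⟨c, ⟨hc, h2, h1⟩, fun c' hc' => huniq c' ⟨hc'.1, hc'.2.2, hc'.2.1⟩⟩
      · refine ⟨inf n X, ⟨(hmem _).2 (Or.inl rfl), mem_inf i, mem_inf j⟩, ?_⟩
        rintro c ⟨hc, h1, h2⟩
        rcases (hmem c).1 hc with rfl | ⟨h, hh, hXh, rfl⟩
        · rfl
        · exfalso
          rw [mem_ln_inr] at h1 h2
          exact hPQ (by rw [h1, h2])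
  · intro g hg hXg h hh hXh
    rw [← hd1 g hg hXg h hh hXh]
    exact Sum.inr_injective.eq_iff
  · intro P
    rcases hall P with ⟨y, hy, h⟩ | ⟨i, rfl⟩
    · exact Or.inl ⟨y, hy, h⟩
    · obtain ⟨g, hg, hXg, -, hdg⟩ := hd2 i y0 hy0
      exact Or.inr ⟨g, hg, hXg, by rw [hdg]⟩
  · intro g _ _ h _ _
    rw [mem_ln_inr]
    exact Sum.inr_injective.eq_iff.symm

end Pool.Agent.U450.MQ
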